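import Pool.Agent.PisotNormal.Final

/-!
Problem MP_26ac3f_lc, Q2: the intersection `I` of the sets `𝒩(α)`, `|α|` Pisot, is
`Π⁰₃`-complete.
-/

set_option autoImplicit false

namespace Pool.Agent.Results.MP_26ac3f_lc.InterPiThree

open Pool.Agent.PisotNormal

/-- The set `I` of real numbers `ξ` such that `(ξ α ^ n)` is uniformly distributed modulo one for
all real `α` with `|α|` a Pisot number is `Π⁰₃`-complete. -/
theorem result.{u} : PiComplete.{u} 3 pisotInter := piComplete_pisotInter

end Pool.Agent.Results.MP_26ac3f_lc.InterPiThree
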