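import Pool.Agent.PisotNormal.Final

/-!
Problem MP_26ac3f_lc, Q1: the union `U` of the sets `𝒩(α)`, `|α|` Pisot, is `Σ⁰₄`-complete.
-/

set_option autoImplicit false

namespace Pool.Agent.Results.MP_26ac3f_lc.UnionSigmaFour

open Pool.Agent.PisotNormal

/-- The set `U` of real numbers `ξ` such that `(ξ α ^ n)` is uniformly distributed modulo one for
some real `α` with `|α|` a Pisot number is `Σ⁰₄`-complete. -/
theorem result.{u} : SigmaComplete.{u} 4 pisotUnion := sigmaComplete_pisotUnion

end Pool.Agent.Results.MP_26ac3f_lc.UnionSigmaFour
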